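import Pool.Agent.H45.Nev.LeafDefs

/-!
# Cutoff functions near the singular set of a foliation
-/

open MeasureTheory Set Metric Filter Topology
open scoped ContDiff Manifold

namespace Pool.Agent.H71.Nev343

open Pool.Agent.H45.Nev

section chain

variable {E : Type*} [NormedAddCommGroup E] [NormedSpace ℂ E]

lemma snd_comp_real {g : E → ℝ} {f : ℝ → ℝ} {y : E} (hg : ContDiffAt ℝ 2 g y)
    (hf : ContDiffAt ℝ 2 f (g y)) (v w : E) :
    fderiv ℝ (fderiv ℝ (f ∘ g)) y v w =
      deriv (deriv f) (g y) * (fderiv ℝ g y v * fderiv ℝ g y w) +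
        deriv f (g y) * fderiv ℝ (fderiv ℝ g) y v w := by
  have hg1 : ∀ᶠ z in 𝓝 y, ContDiffAt ℝ 2 g z := hg.eventually (by simp)
  have hf1 : ∀ᶠ x in 𝓝 (g y), ContDiffAt ℝ 2 f x := hf.eventually (by simp)
  have hf2 : ∀ᶠ z in 𝓝 y, ContDiffAt ℝ 2 f (g z) := hg.continuousAt.eventually hf1
  have hev : fderiv ℝ (f ∘ g) =ᶠ[𝓝 y] fun z => deriv f (g z) • fderiv ℝ g z := by
    filter_upwards [hg1, hf2] with z hz hz'
    have h1 := (hz.differentiableAt (by norm_num)).hasFDerivAt
    have h2 := (hz'.differentiableAt (by norm_num)).hasDerivAt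
    exact (h2.comp_hasFDerivAt z h1).fderiv
  rw [hev.fderiv_eq]
  have hgd : HasFDerivAt (fderiv ℝ g) (fderiv ℝ (fderiv ℝ g) y) y :=
    ((hg.fderiv_right (m := 1) (by norm_num)).differentiableAt (by norm_num)).hasFDerivAt
  have hfd : HasDerivAt (deriv f) (deriv (deriv f) (g y)) (g y) := by
    have h1 : ContDiffAt ℝ 1 (fderiv ℝ f) (g y) := hf.fderiv_right (m := 1) (by norm_num)
    have h2 : DifferentiableAt ℝ (fun x => fderiv ℝ f x 1) (g y) :=
      (h1.differentiableAt (by norm_num)).clm_apply (differentiableAt_const _)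
    exact h2.hasDerivAt
  have hgy := (hg.differentiableAt (by norm_num)).hasFDerivAt
  have h3 := (hfd.comp_hasFDerivAt y hgy).smul hgd
  have h4 := h3.fderiv
  simp only [Function.comp_apply] at h4
  rw [show (fun z => deriv f (g z) • fderiv ℝ g z) = (deriv f ∘ g) • fderiv ℝ g from rfl, h4]
  simp
  ring

lemma levS_real {g : E → ℝ} {f : ℝ → ℝ} {y : E} (hg : ContDiffAt ℝ 2 g y)
    (hf : ContDiffAt ℝ 2 f (g y)) (v : E) :
    levS (f ∘ g) y v v = deriv f (g y) * levS g y v v + deriv (deriv f) (g y) * grd g y v := by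
  unfold levS grd
  rw [snd_comp_real hg hf, snd_comp_real hg hf]
  ring

lemma grd_nonneg (g : E → ℝ) (y v : E) : 0 ≤ grd g y v := by
  unfold grd; positivity

end chain


section leaf

variable {E : Type*} [NormedAddCommGroup E] [NormedSpace ℂ E]
  {M : Type*} [TopologicalSpace M] [ChartedSpace E M]

lemma gen_ne {F : SingFoliation E M} {x : M} (hx : x ∉ F.sing) : F.gen x ≠ 0 := fun h =>
  hx ⟨(F.cover x).choose, (F.cover x).choose_spec, h⟩

lemma leafGrd_nonneg {F : SingFoliation E M} {κ : Form11 E M} (hκ : IsHermitianMetric κ)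
    (s : M → ℝ) (x : M) : 0 ≤ leafGrd F κ s x := by
  unfold leafGrd
  split_ifs with h
  · exact le_rfl
  · exact div_nonneg (grd_nonneg _ _ _) (hκ x _ (gen_ne h)).1.le

lemma leafLap_sing {F : SingFoliation E M} {κ : Form11 E M} {s : M → ℝ} {x : M}
    (hx : x ∈ F.sing) : leafLap F κ s x = 0 := by
  unfold leafLap; rw [if_pos hx]

lemma leafGrd_sing {F : SingFoliation E M} {κ : Form11 E M} {s : M → ℝ} {x : M}
    (hx : x ∈ F.sing) : leafGrd F κ s x = 0 := by
  unfold leafGrd; rw [if_pos hx]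

lemma leafLap_comp [IsManifold 𝓘(ℂ, E) ω M] (F : SingFoliation E M) (κ : Form11 E M)
    {s : M → ℝ} (hs : IsSmooth E s)
    {f : ℝ → ℝ} {x : M} (hf : ContDiffAt ℝ 2 f (s x)) :
    leafLap F κ (f ∘ s) x =
      deriv f (s x) * leafLap F κ s x + deriv (deriv f) (s x) * leafGrd F κ s x := by
  by_cases hx : x ∈ F.sing
  · rw [leafLap_sing hx, leafLap_sing hx, leafGrd_sing hx]; ring
  · unfold leafLap leafGrd
    rw [if_neg hx, if_neg hx, if_neg hx]
    have h1 : ContDiffAt ℝ 2 (s ∘ (chartAt E x).symm) (chartAt E x x) :=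
      (hs.contDiffAt_symm (chartAt_mem_max x) (mem_chart_target E x)).of_le
        (WithTop.coe_le_coe.2 le_top)
    have h2 : (s ∘ (chartAt E x).symm) (chartAt E x x) = s x := by
      simp [(chartAt E x).left_inv (mem_chart_source E x)]
    have h3 := levS_real (f := f) h1 (by rw [h2]; exact hf) (F.gen x : E)
    rw [h2] at h3
    unfold mLevS mGrd
    rw [Function.comp_assoc, h3]
    ring

lemma isSmooth_comp [IsManifold 𝓘(ℂ, E) ω M] {s : M → ℝ} (hs : IsSmooth E s)
    {f : ℝ → ℝ} (hf : ∀ x, ContDiffAt ℝ ∞ f (s x)) : IsSmooth E (f ∘ s) := by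
  intro x
  exact (hf x).contMDiffAt.comp x (hs x)

end leaf

section fatou

variable {M : Type*} [MeasurableSpace M]

lemma integrable_of_fatou (μ : Measure M) {f : ℕ → M → ℝ} {g : M → ℝ}
    (h0 : ∀ n x, 0 ≤ f n x) (hi : ∀ n, Integrable (f n) μ) (K : ℝ) (hK : ∀ n, ∫ x, f n x ∂μ ≤ K)
    (hlim : ∀ᵐ x ∂μ, Tendsto (fun n => f n x) atTop (𝓝 (g x))) : Integrable g μ := by
  have hm : ∀ n, AEStronglyMeasurable (f n) μ := fun n => (hi n).1
  have hg : AEStronglyMeasurable g μ := aestronglyMeasurable_of_tendsto_ae atTop hm hlim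
  have h1 := Lp.eLpNorm_lim_le_liminf_eLpNorm (p := 1) hm g hlim
  refine ⟨hg, ?_⟩
  rw [hasFiniteIntegral_iff_enorm]
  rw [eLpNorm_one_eq_lintegral_enorm] at h1
  refine lt_of_le_of_lt h1 (lt_of_le_of_lt ?_ (ENNReal.ofReal_lt_top (r := K)))
  refine Filter.liminf_le_of_le (by isBoundedDefault) ?_
  intro b hb
  obtain ⟨n, hn⟩ := hb.exists
  refine hn.trans ?_
  rw [eLpNorm_one_eq_lintegral_enorm, ← ofReal_integral_norm_eq_lintegral_enorm (hi n)]
  refine ENNReal.ofReal_le_ofReal ?_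
  refine le_trans (le_of_eq ?_) (hK n)
  refine integral_congr_ae (Eventually.of_forall fun x => ?_)
  simp only [Real.norm_eq_abs]
  exact abs_of_nonneg (h0 n x)

end fatou

section cut

/-- the profile: `1` for `u ≤ 1`, `0` for `u ≥ 2` -/
noncomputable def zet (u : ℝ) : ℝ := Real.smoothTransition (2 - u)

lemma zet_smooth : ContDiff ℝ ∞ zet :=
  Real.smoothTransition.contDiff.comp (contDiff_const.sub contDiff_id)

lemma zet_one {u : ℝ} (hu : u ≤ 1) : zet u = 1 :=
  Real.smoothTransition.one_of_one_le (by linarith)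

lemma zet_zero {u : ℝ} (hu : 2 ≤ u) : zet u = 0 :=
  Real.smoothTransition.zero_of_nonpos (by linarith)

lemma zet_nonneg (u : ℝ) : 0 ≤ zet u := Real.smoothTransition.nonneg _

lemma zet_le_one (u : ℝ) : zet u ≤ 1 := Real.smoothTransition.le_one _

lemma zet_d {u : ℝ} (hu : u < 1 ∨ 2 < u) : deriv zet u = 0 ∧ deriv (deriv zet) u = 0 := by
  have h : ∀ v, (v < 1 ∨ 2 < v) → deriv zet v = 0 := by
    intro v hv
    rcases hv with hv | hv
    · have : zet =ᶠ[𝓝 v] fun _ => 1 := by
        filter_upwards [Iio_mem_nhds hv] with w hw using zet_one (le_of_lt hw)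
      rw [this.deriv_eq]; simp
    · have : zet =ᶠ[𝓝 v] fun _ => 0 := by
        filter_upwards [Ioi_mem_nhds hv] with w hw using zet_zero (le_of_lt hw)
      rw [this.deriv_eq]; simp
  refine ⟨h u hu, ?_⟩
  have : deriv zet =ᶠ[𝓝 u] fun _ => 0 := by
    rcases hu with hu | hu
    · filter_upwards [Iio_mem_nhds hu] with w hw using h w (Or.inl hw)
    · filter_upwards [Ioi_mem_nhds hu] with w hw using h w (Or.inr hw)
  rw [this.deriv_eq]; simp

lemma zet_bdd : ∃ c : ℝ, 0 ≤ c ∧ ∀ u, |deriv zet u| ≤ c ∧ |deriv (deriv zet) u| ≤ c := by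
  have h1 : ContDiff ℝ ∞ (deriv zet) := (contDiff_infty_iff_deriv.1 zet_smooth).2
  have h2 : ContDiff ℝ ∞ (deriv (deriv zet)) := (contDiff_infty_iff_deriv.1 h1).2
  obtain ⟨c1, hc1⟩ := isCompact_Icc.exists_bound_of_continuousOn (s := Icc (1 : ℝ) 2)
    (h1.continuous.continuousOn)
  obtain ⟨c2, hc2⟩ := isCompact_Icc.exists_bound_of_continuousOn (s := Icc (1 : ℝ) 2)
    (h2.continuous.continuousOn)
  refine ⟨max 0 (max c1 c2), le_max_left _ _, fun u => ?_⟩
  by_cases hu : u < 1 ∨ 2 < u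
  · rw [(zet_d hu).1, (zet_d hu).2]; simp
  · push Not at hu
    exact ⟨(hc1 u hu).trans (le_trans (le_max_left _ _) (le_max_right _ _)),
      (hc2 u hu).trans (le_trans (le_max_right _ _) (le_max_right _ _))⟩

open Classical in
/-- the cutoff as a function of `s` -/
noncomputable def cutF (N : ℝ) (t : ℝ) : ℝ := if t ≤ 0 then 0 else zet (-Real.log t / N)

lemma cutF_pos {N t : ℝ} (ht : 0 < t) : cutF N t = zet (-Real.log t / N) := by
  unfold cutF; rw [if_neg (not_le.2 ht)]

lemma cutF_zero {N t : ℝ} (hN : 0 < N) (ht : t ≤ Real.exp (-(2 * N))) : cutF N t = 0 := by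
  unfold cutF
  split_ifs with h
  · rfl
  · push Not at h
    refine zet_zero ?_
    rw [le_div_iff₀ hN]
    have := Real.log_le_log h ht
    rw [Real.log_exp] at this
    linarith

lemma cutF_nonneg (N t : ℝ) : 0 ≤ cutF N t := by
  unfold cutF
  split_ifs
  · exact le_rfl
  · exact zet_nonneg _

lemma cutF_le_one (N t : ℝ) : cutF N t ≤ 1 := by
  unfold cutF
  split_ifs
  · exact zero_le_one
  · exact zet_le_one _

lemma cutF_ev {N t : ℝ} (ht : 0 < t) : cutF N =ᶠ[𝓝 t] fun t => zet (-Real.log t / N) := by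
  filter_upwards [Ioi_mem_nhds ht] with w hw using cutF_pos hw

lemma cutF_smooth {N : ℝ} (hN : 0 < N) (t : ℝ) : ContDiffAt ℝ ∞ (cutF N) t := by
  by_cases ht : 0 < t
  · refine ContDiffAt.congr_of_eventuallyEq ?_ (cutF_ev ht)
    refine zet_smooth.contDiffAt.comp t ?_
    exact ((Real.contDiffAt_log.2 ht.ne').neg).div_const N
  · have : cutF N =ᶠ[𝓝 t] fun _ => 0 := by
      have h1 : t < Real.exp (-(2 * N)) := lt_of_le_of_lt (not_lt.1 ht) (Real.exp_pos _)
      filter_upwards [Iio_mem_nhds h1] with w hw using cutF_zero hN (le_of_lt hw)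
    exact contDiffAt_const.congr_of_eventuallyEq this

lemma cutF_deriv {N t : ℝ} (ht : 0 < t) :
    deriv (cutF N) t = -(deriv zet (-Real.log t / N) / (N * t)) := by
  rw [(cutF_ev ht).deriv_eq]
  have h1 : HasDerivAt (fun t => -Real.log t / N) (-t⁻¹ / N) t :=
    ((Real.hasDerivAt_log ht.ne').neg).div_const N
  have h2 : HasDerivAt zet (deriv zet (-Real.log t / N)) (-Real.log t / N) :=
    (zet_smooth.differentiable (by simp)).differentiableAt.hasDerivAt
  have h3 := (h2.comp t h1).deriv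
  rw [show (fun t => zet (-Real.log t / N)) = zet ∘ fun t => -Real.log t / N from rfl, h3]
  rw [← div_div, div_eq_mul_inv _ t]
  ring

lemma cutF_deriv2 {N t : ℝ} (hN : N ≠ 0) (ht : 0 < t) :
    deriv (deriv (cutF N)) t = deriv (deriv zet) (-Real.log t / N) / (N * t) ^ 2 +
      deriv zet (-Real.log t / N) / (N * t ^ 2) := by
  have hev : deriv (cutF N) =ᶠ[𝓝 t] fun t => -(deriv zet (-Real.log t / N) / (N * t)) := by
    filter_upwards [Ioi_mem_nhds ht] with w hw using cutF_deriv hw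
  rw [hev.deriv_eq]
  have h1 : HasDerivAt (fun t => -Real.log t / N) (-t⁻¹ / N) t :=
    ((Real.hasDerivAt_log ht.ne').neg).div_const N
  have hz : ContDiff ℝ ∞ (deriv zet) := (contDiff_infty_iff_deriv.1 zet_smooth).2
  have h2 : HasDerivAt (deriv zet) (deriv (deriv zet) (-Real.log t / N)) (-Real.log t / N) :=
    (hz.differentiable (by simp)).differentiableAt.hasDerivAt
  have h3 := h2.comp t h1
  have h4 : HasDerivAt (fun t : ℝ => N * t) N t := by
    simpa using (hasDerivAt_id t).const_mul N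
  have h5 := ((h3.div h4 (mul_ne_zero hN ht.ne')).neg).deriv
  refine Eq.trans h5 ?_
  simp only [Function.comp_apply]
  have := ht.ne'
  field_simp
  ring

end cut

section profiles

/-- `log (t + ε)` -/
noncomputable def psi (ε t : ℝ) : ℝ := Real.log (t + ε)

/-- `-log (-log (t + ε))` -/
noncomputable def vf (ε t : ℝ) : ℝ := -Real.log (-Real.log (t + ε))

lemma psi_smooth {ε t : ℝ} (h : 0 < t + ε) : ContDiffAt ℝ ∞ (psi ε) t :=
  ContDiffAt.log (contDiffAt_id.add contDiffAt_const) h.ne'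

lemma add_ev {ε t : ℝ} (h : 0 < t + ε) : ∀ᶠ u in 𝓝 t, 0 < u + ε :=
  (continuousAt_id.add continuousAt_const).eventually (lt_mem_nhds h)

lemma psi_deriv {ε t : ℝ} (h : 0 < t + ε) : deriv (psi ε) t = (t + ε)⁻¹ := by
  have h1 : HasDerivAt (fun u => u + ε) 1 t := (hasDerivAt_id t).add_const ε
  have h2 := (h1.log h.ne').deriv
  rw [one_div] at h2
  exact h2

lemma psi_deriv2 {ε t : ℝ} (h : 0 < t + ε) : deriv (deriv (psi ε)) t = -((t + ε) ^ 2)⁻¹ := by
  have hev : deriv (psi ε) =ᶠ[𝓝 t] fun u => (u + ε)⁻¹ := by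
    filter_upwards [add_ev h] with u hu using psi_deriv hu
  rw [hev.deriv_eq]
  have h1 : HasDerivAt (fun u => u + ε) 1 t := (hasDerivAt_id t).add_const ε
  have h2 := (h1.fun_inv h.ne').deriv
  rw [h2]
  rw [neg_div, one_div]

lemma log_neg' {τ : ℝ} (h0 : 0 < τ) (h1 : τ < 1) : 0 < -Real.log τ := by
  have := Real.log_neg h0 h1; linarith

lemma vf_smooth {ε t : ℝ} (h : 0 < t + ε) (h1 : t + ε < 1) : ContDiffAt ℝ ∞ (vf ε) t := by
  have := log_neg' h h1
  exact (ContDiffAt.log (ContDiffAt.neg (psi_smooth h)) this.ne').neg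

lemma vf_deriv {ε t : ℝ} (h : 0 < t + ε) (h1 : t + ε < 1) :
    deriv (vf ε) t = -((t + ε) * Real.log (t + ε))⁻¹ := by
  have h2 : HasDerivAt (fun u => u + ε) 1 t := (hasDerivAt_id t).add_const ε
  have h3 := h2.log h.ne'
  have h4 := ((h3.fun_neg).log (log_neg' h h1).ne').fun_neg
  have h5 := h4.deriv
  refine Eq.trans h5 ?_
  have h6 : Real.log (t + ε) ≠ 0 := (Real.log_neg h h1).ne
  have h7 := h.ne'
  field_simp

lemma vf_deriv2 {ε t : ℝ} (h : 0 < t + ε) (h1 : t + ε < 1) :
    deriv (deriv (vf ε)) t = (Real.log (t + ε) + 1) / ((t + ε) * Real.log (t + ε)) ^ 2 := by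
  have hev : deriv (vf ε) =ᶠ[𝓝 t] fun u => -((u + ε) * Real.log (u + ε))⁻¹ := by
    have h2 : ∀ᶠ u in 𝓝 t, u + ε < 1 :=
      (continuousAt_id.add continuousAt_const).eventually (gt_mem_nhds h1)
    filter_upwards [add_ev h, h2] with u hu hu' using vf_deriv hu hu'
  rw [hev.deriv_eq]
  have h2 : HasDerivAt (fun u => u + ε) 1 t := (hasDerivAt_id t).add_const ε
  have h3 := h2.log h.ne'
  have h4 := h2.fun_mul h3
  have h6 : Real.log (t + ε) ≠ 0 := (Real.log_neg h h1).ne
  have h7 := h.ne'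
  have h5 := ((h4.fun_inv (mul_ne_zero h7 h6)).fun_neg).deriv
  refine Eq.trans h5 ?_
  field_simp

end profiles

section main

lemma tendsto_cd (c : ℝ) : Tendsto (fun n : ℕ => c / ((n : ℝ) + 1)) atTop (𝓝 0) := by
  have := (tendsto_one_div_add_atTop_nhds_zero_nat (𝕜 := ℝ)).const_mul c
  simpa [div_eq_mul_inv] using this

variable {E : Type*} [NormedAddCommGroup E] [NormedSpace ℂ E] [FiniteDimensional ℂ E]
  {M : Type*} [TopologicalSpace M] [ChartedSpace E M] [IsManifold 𝓘(ℂ, E) ω M]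
  [CompactSpace M] [T2Space M]

omit [FiniteDimensional ℂ E] [T2Space M] in
/-- the normalised version -/
theorem exists_cutoffs_aux (F : SingFoliation E M) (κ : Form11 E M) (hκ : IsHermitianMetric κ)
    [MeasurableSpace M] [BorelSpace M] (μ : Measure M) [IsFiniteMeasure μ] (hμ : μ F.sing = 0)
    (hmeas : ∀ u, IsSmooth E u → Measurable (leafLap F κ u) ∧ Measurable (leafGrd F κ u) ∧
      ∃ C, ∀ x, |leafLap F κ u x| ≤ C ∧ |leafGrd F κ u x| ≤ C)
    (hint : ∀ u, IsSmooth E u → ∫ x, leafLap F κ u x ∂μ = 0)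
    (s : M → ℝ) (hs : IsSmooth E s) (hs0 : ∀ x, 0 ≤ s x) (hs1 : ∀ x, s x = 0 ↔ x ∈ F.sing)
    (hs2 : ∀ x, s x ≤ Real.exp (-2))
    (C : ℝ) (hC0 : 0 ≤ C)
    (hC : ∀ x ∉ F.sing, -C * s x ^ 2 ≤ s x * leafLap F κ s x - leafGrd F κ s x) :
    ∃ χ : ℕ → M → ℝ, (∀ n, IsSmooth E (χ n) ∧ (∀ x, 0 ≤ χ n x ∧ χ n x ≤ 1) ∧
        ∃ K, IsCompact K ∧ K ⊆ F.singᶜ ∧ ∀ x ∉ K, χ n x = 0) ∧
      (∀ x ∉ F.sing, Tendsto (fun n => χ n x) atTop (𝓝 1)) ∧
      Tendsto (fun n => ∫ x, |leafLap F κ (χ n) x| ∂μ) atTop (𝓝 0) := by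
  have hsc : Continuous s := ContMDiff.continuous hs
  have hsm : Measurable s := hsc.measurable
  have hpos : ∀ x ∉ F.sing, 0 < s x := fun x hx =>
    lt_of_le_of_ne (hs0 x) (fun h => hx ((hs1 x).1 h.symm))
  set a := leafLap F κ s with ha
  set b := leafGrd F κ s with hb
  have hb0 : ∀ x, 0 ≤ b x := leafGrd_nonneg hκ s
  obtain ⟨ham, hbm, C₁, hC₁⟩ := hmeas s hs
  have hns : ∀ᵐ x ∂μ, x ∉ F.sing := measure_eq_zero_iff_ae_notMem.1 hμ
  have hli : ∀ u, IsSmooth E u → Integrable (leafLap F κ u) μ := by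
    intro u hu
    obtain ⟨h1, -, C, hC⟩ := hmeas u hu
    exact (integrable_const C).mono' h1.aestronglyMeasurable
      (Eventually.of_forall fun x => (hC x).1)
  -- the sequence of `ε`
  set e : ℕ → ℝ := fun n => Real.exp (-2) / (n + 1) with he
  have he0 : ∀ n, 0 < e n := fun n => by positivity
  have he1 : ∀ n, e n ≤ Real.exp (-2) := fun n =>
    div_le_self (Real.exp_pos _).le (by linarith [Nat.cast_nonneg (α := ℝ) n])
  have helim : Tendsto e atTop (𝓝 0) := tendsto_cd _
  have hτ0 : ∀ n x, 0 < s x + e n := fun n x => by linarith [hs0 x, he0 n]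
  have h2e : 2 * Real.exp (-2) ≤ Real.exp (-1) := by
    have h1 : Real.exp (-1) = Real.exp 1 * Real.exp (-2) := by rw [← Real.exp_add]; norm_num
    have h2 : (2 : ℝ) ≤ Real.exp 1 := by linarith [Real.add_one_le_exp (1 : ℝ)]
    rw [h1]
    exact mul_le_mul_of_nonneg_right h2 (Real.exp_pos _).le
  have hτ1 : ∀ n x, s x + e n ≤ Real.exp (-1) := fun n x => by linarith [hs2 x, he1 n]
  have hτ2 : ∀ n x, s x + e n < 1 := fun n x => by
    refine lt_of_le_of_lt (hτ1 n x) ?_
    rw [Real.exp_lt_one_iff]; norm_num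
  have hlog : ∀ n x, Real.log (s x + e n) ≤ -1 := fun n x => by
    have := Real.log_le_log (hτ0 n x) (hτ1 n x)
    rwa [Real.log_exp] at this
  -- lower bound for the Laplacian of `log (s + ε)`
  have key : ∀ n, ∀ x ∉ F.sing, -C * (s x + e n) ^ 2 ≤ (s x + e n) * a x - b x := by
    intro n x hx
    have h1 := hC x hx
    have h2 := hpos x hx
    have h3 : -C * s x ≤ a x := by
      have : s x * (-C * s x) ≤ s x * a x := by nlinarith [hb0 x]
      exact le_of_mul_le_mul_left this h2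
    have h4 := mul_le_mul_of_nonneg_left h3 (he0 n).le
    nlinarith [mul_nonneg hC0 (mul_nonneg h2.le (he0 n).le), mul_nonneg hC0 (sq_nonneg (e n))]
  have hpsi : ∀ n x, leafLap F κ (psi (e n) ∘ s) x =
      (s x + e n)⁻¹ * a x - ((s x + e n) ^ 2)⁻¹ * b x := by
    intro n x
    rw [leafLap_comp F κ hs ((psi_smooth (hτ0 n x)).of_le (WithTop.coe_le_coe.2 le_top)),
      psi_deriv (hτ0 n x), psi_deriv2 (hτ0 n x)]
    ring
  have hpsis : ∀ n, IsSmooth E (psi (e n) ∘ s) := fun n =>
    isSmooth_comp hs fun x => psi_smooth (hτ0 n x)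
  have hpsi1 : ∀ n x, -C ≤ leafLap F κ (psi (e n) ∘ s) x := by
    intro n x
    by_cases hx : x ∈ F.sing
    · rw [leafLap_sing hx]; linarith
    · rw [hpsi]
      have h1 := key n x hx
      have h2 := hτ0 n x
      have h3 : (s x + e n)⁻¹ * a x - ((s x + e n) ^ 2)⁻¹ * b x =
          ((s x + e n) * a x - b x) / (s x + e n) ^ 2 := by
        field_simp
      rw [h3, le_div_iff₀ (by positivity)]
      exact h1
  -- the two limit densities
  set A : M → ℝ := fun x => a x / s x - b x / s x ^ 2 with hA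
  set B : M → ℝ := fun x => b x / (s x * Real.log (s x)) ^ 2 with hB
  have hτlim : ∀ x, Tendsto (fun n => s x + e n) atTop (𝓝 (s x)) := fun x => by
    simpa using (tendsto_const_nhds (x := s x)).add helim
  have hAi : Integrable A μ := by
    have h1 : Integrable (fun x => A x + C) μ := by
      refine integrable_of_fatou μ (f := fun n x => leafLap F κ (psi (e n) ∘ s) x + C)
        (fun n x => by linarith [hpsi1 n x]) (fun n => (hli _ (hpsis n)).add (integrable_const C))
        (∫ _, C ∂μ) (fun n => ?_) ?_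
      · rw [integral_add (hli _ (hpsis n)) (integrable_const C), hint _ (hpsis n), zero_add]
      · filter_upwards [hns] with x hx
        have h0 := (hpos x hx).ne'
        simp only [hpsi]
        refine Tendsto.add_const C ?_
        simp only [hA]
        rw [div_eq_inv_mul, div_eq_inv_mul]
        exact (((hτlim x).inv₀ h0).mul_const _).sub
          ((((hτlim x).pow 2).inv₀ (pow_ne_zero 2 h0)).mul_const _)
    refine (h1.sub (integrable_const C)).congr (Eventually.of_forall fun x => ?_)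
    simp
  have hvf : ∀ n x, leafLap F κ (vf (e n) ∘ s) x =
      (-Real.log (s x + e n))⁻¹ * leafLap F κ (psi (e n) ∘ s) x +
        b x / ((s x + e n) * Real.log (s x + e n)) ^ 2 := by
    intro n x
    rw [leafLap_comp F κ hs ((vf_smooth (hτ0 n x) (hτ2 n x)).of_le (WithTop.coe_le_coe.2 le_top)),
      vf_deriv (hτ0 n x) (hτ2 n x), vf_deriv2 (hτ0 n x) (hτ2 n x), hpsi]
    have h1 := (hτ0 n x).ne'
    have h2 : Real.log (s x + e n) ≠ 0 := by linarith [hlog n x]
    field_simp
    ring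
  have hvfs : ∀ n, IsSmooth E (vf (e n) ∘ s) := fun n =>
    isSmooth_comp hs fun x => vf_smooth (hτ0 n x) (hτ2 n x)
  have hvf1 : ∀ n x, b x / ((s x + e n) * Real.log (s x + e n)) ^ 2 ≤
      leafLap F κ (vf (e n) ∘ s) x + C := by
    intro n x
    rw [hvf]
    have h1 := hlog n x
    have h2 : 0 < (-Real.log (s x + e n))⁻¹ := inv_pos.2 (by linarith)
    have h3 : (-Real.log (s x + e n))⁻¹ ≤ 1 := inv_le_one_of_one_le₀ (by linarith)
    nlinarith [hpsi1 n x, mul_le_mul_of_nonneg_left (hpsi1 n x) h2.le, mul_nonneg hC0 h2.le]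
  have hBi : Integrable B μ := by
    have hfi : ∀ n, Integrable
        (fun x => b x / ((s x + e n) * Real.log (s x + e n)) ^ 2) μ := by
      intro n
      refine ((hli _ (hvfs n)).add (integrable_const C)).mono' ?_ (Eventually.of_forall fun x => ?_)
      · refine Measurable.aestronglyMeasurable ?_
        exact hbm.div (((hsm.add_const _).mul (Real.measurable_log.comp (hsm.add_const _))).pow_const 2)
      · rw [Real.norm_of_nonneg (div_nonneg (hb0 x) (sq_nonneg _))]
        exact hvf1 n x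
    refine integrable_of_fatou μ
      (f := fun n x => b x / ((s x + e n) * Real.log (s x + e n)) ^ 2)
      (fun n x => div_nonneg (hb0 x) (sq_nonneg _)) hfi (∫ _, C ∂μ) (fun n => ?_) ?_
    · refine (integral_mono (hfi n) ((hli _ (hvfs n)).add (integrable_const C)) (hvf1 n)).trans ?_
      simp only [Pi.add_apply]
      rw [integral_add (hli _ (hvfs n)) (integrable_const C), hint _ (hvfs n), zero_add]
    · filter_upwards [hns] with x hx
      have h0 := hpos x hx
      have h1 : s x < 1 := by linarith [hτ2 0 x, he0 0]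
      have h2 : Real.log (s x) ≠ 0 := (Real.log_neg h0 h1).ne
      refine Tendsto.div tendsto_const_nhds ?_ (pow_ne_zero 2 (mul_ne_zero h0.ne' h2))
      exact (((hτlim x).mul ((hτlim x).log h0.ne')).pow 2)
  obtain ⟨c, hc0, hc⟩ := zet_bdd
  have hN : ∀ n : ℕ, (0 : ℝ) < n + 1 := fun n => by positivity
  have hχ : ∀ (n : ℕ) (x : M), x ∉ F.sing → leafLap F κ (cutF (n + 1) ∘ s) x =
      -(deriv zet (-Real.log (s x) / (n + 1)) / (n + 1)) * A x +
        deriv (deriv zet) (-Real.log (s x) / (n + 1)) * (b x / ((n + 1) * s x) ^ 2) := by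
    intro n x hx
    have h0 := hpos x hx
    rw [leafLap_comp F κ hs ((cutF_smooth (hN n) (s x)).of_le (WithTop.coe_le_coe.2 le_top)),
      cutF_deriv h0, cutF_deriv2 (hN n).ne' h0]
    simp only [hA]
    have h1 := (hN n).ne'
    have h2 := h0.ne'
    field_simp
    ring
  have hχb : ∀ (n : ℕ) (x : M), |leafLap F κ (cutF (n + 1) ∘ s) x| ≤
      c * |A x| + 4 * c * B x := by
    intro n x
    have hB0 : 0 ≤ B x := div_nonneg (hb0 x) (sq_nonneg _)
    by_cases hx : x ∈ F.sing
    · rw [leafLap_sing hx, abs_zero]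
      positivity
    · rw [hχ n x hx]
      refine (abs_add_le _ _).trans (add_le_add ?_ ?_)
      · rw [abs_mul]
        refine mul_le_mul_of_nonneg_right ?_ (abs_nonneg _)
        rw [abs_neg, abs_div, abs_of_pos (hN n)]
        refine (div_le_self (abs_nonneg _) ?_).trans (hc _).1
        linarith [Nat.cast_nonneg (α := ℝ) n]
      · set L := Real.log (s x) with hL
        by_cases hr : -L / (n + 1) < 1 ∨ 2 < -L / (n + 1)
        · rw [(zet_d hr).2]; simp; positivity
        · push Not at hr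
          have h0 := hpos x hx
          have h1 : 0 < -L := by
            have := (le_div_iff₀ (hN n)).1 hr.1
            linarith [hN n]
          have h2 : -L ≤ 2 * (n + 1) := (div_le_iff₀ (hN n)).1 hr.2
          rw [abs_mul, abs_of_nonneg (div_nonneg (hb0 x) (sq_nonneg _))]
          have h3 : b x / (((n : ℝ) + 1) * s x) ^ 2 ≤ 4 * B x := by
            simp only [hB]
            rw [← hL, div_le_iff₀ (by have := hN n; positivity)]
            have h4 : b x = (b x / (s x * L) ^ 2) * (s x * L) ^ 2 := by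
              have : L ≠ 0 := by linarith
              have := h0.ne'
              field_simp
            have h5 : (s x * L) ^ 2 ≤ 4 * (((n : ℝ) + 1) * s x) ^ 2 := by
              have h6 : L ^ 2 ≤ (2 * ((n : ℝ) + 1)) ^ 2 := by
                rw [← neg_sq]
                exact pow_le_pow_left₀ h1.le h2 2
              nlinarith [mul_le_mul_of_nonneg_left h6 (sq_nonneg (s x))]
            calc b x = (b x / (s x * L) ^ 2) * (s x * L) ^ 2 := h4
              _ ≤ (b x / (s x * L) ^ 2) * (4 * (((n : ℝ) + 1) * s x) ^ 2) :=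
                mul_le_mul_of_nonneg_left h5 (div_nonneg (hb0 x) (sq_nonneg _))
              _ = _ := by ring
          calc |deriv (deriv zet) (-L / (n + 1))| * (b x / (((n : ℝ) + 1) * s x) ^ 2)
              ≤ c * (4 * B x) := mul_le_mul (hc _).2 h3 (div_nonneg (hb0 x) (sq_nonneg _)) hc0
            _ = _ := by ring
  have hev1 : ∀ x ∉ F.sing, ∀ᶠ n : ℕ in atTop, -Real.log (s x) / (n + 1) < 1 := by
    intro x _
    have : Tendsto (fun n : ℕ => -Real.log (s x) / ((n : ℝ) + 1)) atTop (𝓝 0) := tendsto_cd _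
    exact this.eventually (gt_mem_nhds zero_lt_one)
  refine ⟨fun n => cutF (n + 1) ∘ s, fun n => ⟨isSmooth_comp hs fun x => cutF_smooth (hN n) _,
    fun x => ⟨cutF_nonneg _ _, cutF_le_one _ _⟩, {x | Real.exp (-(2 * (n + 1))) ≤ s x}, ?_, ?_, ?_⟩,
    ?_, ?_⟩
  · exact (isClosed_le continuous_const hsc).isCompact
  · intro x hx hx'
    have h1 : Real.exp (-(2 * ((n : ℝ) + 1))) ≤ s x := hx
    rw [(hs1 x).2 hx'] at h1
    exact absurd (Real.exp_pos _) (not_lt.2 h1)
  · intro x hx
    exact cutF_zero (hN n) (le_of_lt (not_le.1 hx))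
  · intro x hx
    refine tendsto_const_nhds.congr' ?_
    filter_upwards [hev1 x hx] with n hn
    simp only [Function.comp_apply]
    rw [cutF_pos (hpos x hx), zet_one hn.le]
  · have h1 : Tendsto (fun n : ℕ => ∫ x, |leafLap F κ (cutF (n + 1) ∘ s) x| ∂μ) atTop
        (𝓝 (∫ _, (0 : ℝ) ∂μ)) := by
      refine tendsto_integral_of_dominated_convergence (fun x => c * |A x| + 4 * c * B x)
        (fun n => ?_) ((hAi.abs.const_mul c).add (hBi.const_mul (4 * c))) (fun n => ?_) ?_
      · exact ((hli _ (isSmooth_comp hs fun x => cutF_smooth (hN n) _)).abs).1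
      · refine Eventually.of_forall fun x => ?_
        rw [Real.norm_eq_abs, abs_abs]
        exact hχb n x
      · filter_upwards [hns] with x hx
        refine tendsto_const_nhds.congr' ?_
        filter_upwards [hev1 x hx] with n hn
        rw [hχ n x hx, (zet_d (Or.inl hn)).1, (zet_d (Or.inl hn)).2]
        simp
    simpa using h1

/-- I. Cutoff functions near the singular set. -/
theorem exists_cutoffs (F : SingFoliation E M) (κ : Form11 E M) (hκ : IsHermitianMetric κ)
    [MeasurableSpace M] [BorelSpace M] (μ : Measure M) [IsFiniteMeasure μ] (hμ : μ F.sing = 0)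
    (hmeas : ∀ u, IsSmooth E u → Measurable (leafLap F κ u) ∧ Measurable (leafGrd F κ u) ∧
      ∃ C, ∀ x, |leafLap F κ u x| ≤ C ∧ |leafGrd F κ u x| ≤ C)
    (hint : ∀ u, IsSmooth E u → ∫ x, leafLap F κ u x ∂μ = 0)
    (s : M → ℝ) (hs : IsSmooth E s) (hs0 : ∀ x, 0 ≤ s x) (hs1 : ∀ x, s x = 0 ↔ x ∈ F.sing)
    (C : ℝ) (hC : ∀ x ∉ F.sing, -C * s x ^ 2 ≤ s x * leafLap F κ s x - leafGrd F κ s x) :
    ∃ χ : ℕ → M → ℝ, (∀ n, IsSmooth E (χ n) ∧ (∀ x, 0 ≤ χ n x ∧ χ n x ≤ 1) ∧
        ∃ K, IsCompact K ∧ K ⊆ F.singᶜ ∧ ∀ x ∉ K, χ n x = 0) ∧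
      (∀ x ∉ F.sing, Tendsto (fun n => χ n x) atTop (𝓝 1)) ∧
      Tendsto (fun n => ∫ x, |leafLap F κ (χ n) x| ∂μ) atTop (𝓝 0) := by
  have hsc : Continuous s := ContMDiff.continuous hs
  obtain ⟨R, hR⟩ := isCompact_univ.exists_bound_of_continuousOn hsc.continuousOn
  set R' := max R 1 with hR'
  have hR1 : 1 ≤ R' := le_max_right _ _
  have hR0 : 0 < R' := by linarith
  set q : ℝ := Real.exp (-2) / R' with hq
  have hq0 : 0 < q := by positivity
  have hd1 : ∀ t : ℝ, deriv (fun t : ℝ => q * t) t = q := by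
    intro t
    simp
  have hd2 : ∀ t : ℝ, deriv (deriv (fun t : ℝ => q * t)) t = 0 := by
    intro t
    rw [show deriv (fun t : ℝ => q * t) = fun _ => q from funext hd1]; simp
  have hcd : ∀ t : ℝ, ContDiffAt ℝ ∞ (fun t : ℝ => q * t) t := fun t =>
    contDiffAt_const.mul contDiffAt_id
  have hll : ∀ x, leafLap F κ ((fun t : ℝ => q * t) ∘ s) x = q * leafLap F κ s x := by
    intro x
    rw [leafLap_comp F κ hs ((hcd _).of_le (WithTop.coe_le_coe.2 le_top)), hd1, hd2]; ring
  have hlg : ∀ x, leafGrd F κ ((fun t : ℝ => q * t) ∘ s) x = q ^ 2 * leafGrd F κ s x := by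
    intro x
    unfold leafGrd
    split_ifs with hx
    · ring
    · have h1 : DifferentiableAt ℝ (s ∘ (chartAt E x).symm) (chartAt E x x) :=
        (hs.contDiffAt_symm (chartAt_mem_max x) (mem_chart_target E x)).differentiableAt (by simp)
      have h2 : fderiv ℝ (((fun t : ℝ => q * t) ∘ s) ∘ (chartAt E x).symm) (chartAt E x x) =
          q • fderiv ℝ (s ∘ (chartAt E x).symm) (chartAt E x x) := (h1.hasFDerivAt.const_mul q).fderiv
      unfold mGrd grd
      rw [h2]
      simp only [smul_apply, smul_eq_mul]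
      ring
  refine exists_cutoffs_aux F κ hκ μ hμ hmeas hint ((fun t : ℝ => q * t) ∘ s)
    (isSmooth_comp hs fun x => hcd _) (fun x => mul_nonneg hq0.le (hs0 x)) (fun x => ?_)
    (fun x => ?_) (max C 0) (le_max_right _ _) (fun x hx => ?_)
  · simp only [Function.comp_apply, mul_eq_zero, hq0.ne', false_or]
    exact hs1 x
  · simp only [Function.comp_apply, hq]
    have h1 : s x ≤ R' := (le_abs_self _).trans ((hR x (mem_univ x)).trans (le_max_left _ _))
    rw [div_mul_eq_mul_div, div_le_iff₀ hR0]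
    exact mul_le_mul_of_nonneg_left h1 (Real.exp_pos _).le
  · rw [hll, hlg]
    simp only [Function.comp_apply]
    have h1 := hC x hx
    have h2 : -(max C 0) * s x ^ 2 ≤ -C * s x ^ 2 := by
      have := le_max_left C 0
      nlinarith [sq_nonneg (s x)]
    have h3 := mul_le_mul_of_nonneg_left (h2.trans h1) (sq_nonneg q)
    calc -(max C 0) * (q * s x) ^ 2 = q ^ 2 * (-(max C 0) * s x ^ 2) := by ring
      _ ≤ _ := h3
      _ = _ := by ring

end main

end Pool.Agent.H71.Nev343
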