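import Pool.Agent.H45.Nev.LeafDefs

/-!
# Separability of the space of smooth `(1,1)`-forms
-/

open MeasureTheory Set Metric Filter Topology
open scoped ContDiff Manifold

namespace Pool.Agent.H71.Nev343

open Pool.Agent.H45.Nev

section

variable {E : Type*} [NormedAddCommGroup E] [NormedSpace ℂ E]
  {M : Type*} [TopologicalSpace M] [ChartedSpace E M]

/-- the sesquilinear form `(v, w) ↦ inChart e θ v w y` -/
noncomputable def inChartB (e : OpenPartialHomeomorph M E) (θ : SesqField E M) (y : E) :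
    E →ₗ[ℂ] E →ₗ⋆[ℂ] ℂ :=
  LinearMap.mk₂'ₛₗ (RingHom.id ℂ) (starRingEnd ℂ) (fun v w => inChart e θ v w y)
    (fun a b w => by
      have h : mfderiv 𝓘(ℂ, E) 𝓘(ℂ, E) e.symm y (a + b : E) =
        mfderiv 𝓘(ℂ, E) 𝓘(ℂ, E) e.symm y a + mfderiv 𝓘(ℂ, E) 𝓘(ℂ, E) e.symm y b :=
        map_add (mfderiv 𝓘(ℂ, E) 𝓘(ℂ, E) e.symm y) a b
      unfold inChart
      rw [h, map_add]; rfl)
    (fun c a w => by
      have h : mfderiv 𝓘(ℂ, E) 𝓘(ℂ, E) e.symm y (c • a : E) =
        c • mfderiv 𝓘(ℂ, E) 𝓘(ℂ, E) e.symm y a :=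
        map_smul (mfderiv 𝓘(ℂ, E) 𝓘(ℂ, E) e.symm y) c a
      unfold inChart
      rw [h, map_smul]; rfl)
    (fun v a b => by
      have h : mfderiv 𝓘(ℂ, E) 𝓘(ℂ, E) e.symm y (a + b : E) =
        mfderiv 𝓘(ℂ, E) 𝓘(ℂ, E) e.symm y a + mfderiv 𝓘(ℂ, E) 𝓘(ℂ, E) e.symm y b :=
        map_add (mfderiv 𝓘(ℂ, E) 𝓘(ℂ, E) e.symm y) a b
      unfold inChart
      rw [h, map_add])
    (fun c v a => by
      have h : mfderiv 𝓘(ℂ, E) 𝓘(ℂ, E) e.symm y (c • a : E) =
        c • mfderiv 𝓘(ℂ, E) 𝓘(ℂ, E) e.symm y a :=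
        map_smul (mfderiv 𝓘(ℂ, E) 𝓘(ℂ, E) e.symm y) c a
      unfold inChart
      rw [h, LinearMap.map_smulₛₗ])

lemma inChartB_apply (e : OpenPartialHomeomorph M E) (θ : SesqField E M) (y v w : E) :
    inChartB e θ y v w = inChart e θ v w y := rfl

lemma inChart_expand {n : ℕ} (b : Module.Basis (Fin n) ℂ E) (e : OpenPartialHomeomorph M E)
    (θ : SesqField E M) (v w y : E) :
    inChart e θ v w y = ∑ j, ∑ k, b.repr v j * (starRingEnd ℂ) (b.repr w k) *
      inChart e θ (b j) (b k) y := by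
  rw [← inChartB_apply]
  conv_lhs => rw [← b.sum_repr v, ← b.sum_repr w]
  simp only [map_sum, map_smul, LinearMap.sum_apply, LinearMap.smul_apply,
    LinearMap.map_smulₛₗ, smul_eq_mul]
  rw [Finset.sum_comm]
  refine Finset.sum_congr rfl fun j _ => ?_
  rw [Finset.mul_sum]
  refine Finset.sum_congr rfl fun k _ => ?_
  rw [inChartB_apply]
  ring

lemma inChart_sub (e : OpenPartialHomeomorph M E) (θ η : Form11 E M) (v w y : E) :
    inChart e (θ - η).1 v w y = inChart e θ.1 v w y - inChart e η.1 v w y := rfl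

end

section main

variable {E : Type*} [NormedAddCommGroup E] [NormedSpace ℂ E] [FiniteDimensional ℂ E]
  {M : Type*} [TopologicalSpace M] [ChartedSpace E M] [IsManifold 𝓘(ℂ, E) ω M]

omit [FiniteDimensional ℂ E] in
/-- vectors at points of the source of a chart come from the chart -/
lemma exists_mfderiv_eq (x₀ x : M) (hx : x ∈ (chartAt E x₀).source)
    (v : TangentSpace 𝓘(ℂ, E) x) : ∃ w : E,
      ∀ θ : SesqField E M, inChart (chartAt E x₀) θ w w (chartAt E x₀ x) = θ x v v := by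
  have hc := mdifferentiable_chart (I := 𝓘(ℂ, E)) x₀
  have h1 := hc.symm_comp_deriv hx
  refine ⟨mfderiv 𝓘(ℂ, E) 𝓘(ℂ, E) (chartAt E x₀) x v, fun θ => ?_⟩
  have h2 : mfderiv 𝓘(ℂ, E) 𝓘(ℂ, E) (chartAt E x₀).symm (chartAt E x₀ x)
      (mfderiv 𝓘(ℂ, E) 𝓘(ℂ, E) (chartAt E x₀) x v) = v := by
    have := congrArg (fun L : TangentSpace 𝓘(ℂ, E) x →L[ℂ] TangentSpace 𝓘(ℂ, E) x => L v) h1
    exact this
  unfold inChart
  have h3 : (chartAt E x₀).symm (chartAt E x₀ x) = x := (chartAt E x₀).left_inv hx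
  have h4 : ∀ (x' : M) (hx' : x' = x) (v' : TangentSpace 𝓘(ℂ, E) x') (_ : (v' : E) = (v : E)),
      θ x' v' v' = θ x v v := by
    intro x' hx' v' hv'
    subst hx'
    have : v' = v := hv'
    rw [this]
  exact h4 _ h3 _ h2

omit [IsManifold 𝓘(ℂ, E) ω M] in
/-- lower bound for a metric in a chart -/
lemma metric_lower [IsManifold 𝓘(ℂ, E) ω M] (κ : Form11 E M) (hκ : IsHermitianMetric κ)
    (x₀ : M) (K : Set E)
    (hK : IsCompact K) (hKt : K ⊆ (chartAt E x₀).target) :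
    ∃ c : ℝ, 0 < c ∧ ∀ y ∈ K, ∀ v : E, c * ‖v‖ ^ 2 ≤ (inChart (chartAt E x₀) κ.1 v v y).re := by
  have : ProperSpace E := FiniteDimensional.proper ℂ E
  let b := Module.finBasis ℂ E
  have hcont : ∀ v w, ContinuousOn (inChart (chartAt E x₀) κ.1 v w) (chartAt E x₀).target :=
    fun v w => (κ.2 _ (chartAt_mem_max x₀) v w).continuousOn
  have hpos : ∀ y ∈ K, ∀ v : E, v ≠ 0 → 0 < (inChart (chartAt E x₀) κ.1 v v y).re := by
    intro y hy v hv
    refine (hκ _ _ ?_).1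
    have hc := mdifferentiable_chart (I := 𝓘(ℂ, E)) x₀
    have h1 := hc.comp_symm_deriv (hKt hy)
    intro h0
    apply hv
    have := congrArg (fun L : TangentSpace 𝓘(ℂ, E) y →L[ℂ] TangentSpace 𝓘(ℂ, E) y => L v) h1
    have h2 : mfderiv 𝓘(ℂ, E) 𝓘(ℂ, E) (chartAt E x₀) ((chartAt E x₀).symm y)
      (mfderiv 𝓘(ℂ, E) 𝓘(ℂ, E) (chartAt E x₀).symm y v) = v := this
    rw [h0, map_zero] at h2
    exact h2.symm
  -- joint continuity
  have hj : ContinuousOn (fun p : E × E => (inChart (chartAt E x₀) κ.1 p.2 p.2 p.1).re)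
      (K ×ˢ sphere (0 : E) 1) := by
    refine Complex.continuous_re.comp_continuousOn ?_
    have h1 : (fun p : E × E => inChart (chartAt E x₀) κ.1 p.2 p.2 p.1) = fun p : E × E =>
        ∑ j, ∑ k, b.repr p.2 j * (starRingEnd ℂ) (b.repr p.2 k) *
          inChart (chartAt E x₀) κ.1 (b j) (b k) p.1 := by
      funext p
      exact inChart_expand b _ _ _ _ _
    rw [h1]
    have h2 : ∀ j, Continuous (fun v : E => b.repr v j) := fun j =>
      (LinearMap.continuous_of_finiteDimensional (b.coord j))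
    refine continuousOn_finsetSum _ fun j _ => continuousOn_finsetSum _ fun k _ => ?_
    refine ContinuousOn.mul (Continuous.continuousOn ?_) ?_
    · exact ((h2 j).comp continuous_snd).mul
        (Complex.continuous_conj.comp ((h2 k).comp continuous_snd))
    · exact (hcont (b j) (b k)).comp continuousOn_fst fun p hp => hKt hp.1
  have hcomp : IsCompact (K ×ˢ sphere (0 : E) 1) := hK.prod (isCompact_sphere 0 1)
  have hlow : ∃ c : ℝ, 0 < c ∧ ∀ p ∈ K ×ˢ sphere (0 : E) 1,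
      c ≤ (inChart (chartAt E x₀) κ.1 p.2 p.2 p.1).re := by
    rcases (K ×ˢ sphere (0 : E) 1).eq_empty_or_nonempty with h | h
    · exact ⟨1, one_pos, fun p hp => absurd hp (by rw [h]; exact notMem_empty p)⟩
    · obtain ⟨p, hp, hp'⟩ := hcomp.exists_isMinOn h hj
      refine ⟨_, hpos p.1 hp.1 p.2 ?_, fun q hq => hp' hq⟩
      intro h0
      have := hp.2
      rw [h0] at this
      simp at this
  obtain ⟨c, hc0, hc⟩ := hlow
  refine ⟨c, hc0, fun y hy v => ?_⟩
  by_cases hv : v = 0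
  · subst hv
    rw [← inChartB_apply]
    simp
  · have hn : ‖v‖ ≠ 0 := norm_ne_zero_iff.2 hv
    set u : E := ((‖v‖⁻¹ : ℝ) : ℂ) • v with hu
    have hu1 : u ∈ sphere (0 : E) 1 := by
      rw [mem_sphere_zero_iff_norm, hu, norm_smul, Complex.norm_real, norm_inv, norm_norm,
        inv_mul_cancel₀ hn]
    have h1 := hc (y, u) ⟨hy, hu1⟩
    have h2 : v = ((‖v‖ : ℝ) : ℂ) • u := by
      rw [hu, smul_smul, ← Complex.ofReal_mul, mul_inv_cancel₀ hn]; simp
    have h3 : inChart (chartAt E x₀) κ.1 v v y =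
        ((‖v‖ ^ 2 : ℝ) : ℂ) * inChart (chartAt E x₀) κ.1 u u y := by
      rw [← inChartB_apply, ← inChartB_apply]
      conv_lhs => rw [h2]
      rw [LinearMap.map_smulₛₗ, LinearMap.map_smul, LinearMap.smul_apply, Complex.conj_ofReal,
        smul_smul, smul_eq_mul]
      push_cast; ring
    rw [h3, Complex.re_ofReal_mul, mul_comm]
    exact mul_le_mul_of_nonneg_left h1 (sq_nonneg _)

variable [CompactSpace M] [T2Space M]

/-- N. Separability of the space of forms. -/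
theorem form_separable (κ : Form11 E M) (hκ : IsHermitianMetric κ) :
    ∃ S : Set (Form11 E M), S.Countable ∧ ∀ θ : Form11 E M, ∀ ε : ℝ, 0 < ε → ∃ η ∈ S,
      ∀ (x : M) (v : TangentSpace 𝓘(ℂ, E) x), ‖(θ - η).1 x v v‖ ≤ ε * (κ.1 x v v).re := by
  have : ProperSpace E := FiniteDimensional.proper ℂ E
  let b := Module.finBasis ℂ E
  have hr : ∀ x : M, ∃ r : ℝ, 0 < r ∧ closedBall (chartAt E x x) r ⊆ (chartAt E x).target := by
    intro x
    exact Metric.nhds_basis_closedBall.mem_iff.1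
      ((chartAt E x).open_target.mem_nhds (mem_chart_target E x))
  choose r hr0 hr1 using hr
  let U : M → Set M := fun x => (chartAt E x).source ∩ (chartAt E x) ⁻¹' ball (chartAt E x x) (r x)
  have hU : ∀ x ∈ (univ : Set M), U x ∈ 𝓝 x := by
    intro x _
    refine Filter.inter_mem ((chartAt E x).open_source.mem_nhds (mem_chart_source E x)) ?_
    exact ((chartAt E x).continuousAt (mem_chart_source E x)).preimage_mem_nhds
      (ball_mem_nhds _ (hr0 x))
  obtain ⟨t, -, ht⟩ := isCompact_univ.elim_nhds_subcover U hU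
  -- the coefficient map
  let K : M → Set E := fun x => closedBall (chartAt E x x) (r x)
  have hKc : ∀ x, IsCompact (K x) := fun x => isCompact_closedBall _ _
  have : ∀ x, CompactSpace (K x) := fun x => isCompact_iff_compactSpace.1 (hKc x)
  have hcont : ∀ (x : M) (θ : Form11 E M) v w,
      ContinuousOn (inChart (chartAt E x) θ.1 v w) (chartAt E x).target :=
    fun x θ v w => (θ.2 _ (chartAt_mem_max x) v w).continuousOn
  let n := Module.finrank ℂ E
  let Φ : Form11 E M → ∀ x : t, C(K x, Fin n → Fin n → ℂ) := fun θ x =>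
    ⟨fun y j k => inChart (chartAt E (x : M)) θ.1 (b j) (b k) y, by
      refine continuous_pi fun j => continuous_pi fun k => ?_
      exact continuousOn_iff_continuous_domRestrict.1 ((hcont x θ (b j) (b k)).mono (hr1 x))⟩
  have hsep : TopologicalSpace.IsSeparable (range Φ) :=
    TopologicalSpace.IsSeparable.of_separableSpace _
  obtain ⟨D, hD1, hD2, hD3⟩ := hsep.exists_countable_dense_subset
  choose! g hg using fun d (hd : d ∈ D) => hD1 hd
  refine ⟨g '' D, hD2.image g, fun θ ε hε => ?_⟩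
  -- constants
  have hlow : ∀ x : M, ∃ c : ℝ, 0 < c ∧ ∀ y ∈ K x, ∀ v : E,
      c * ‖v‖ ^ 2 ≤ (inChart (chartAt E x) κ.1 v v y).re := fun x =>
    metric_lower κ hκ x (K x) (hKc x) (hr1 x)
  choose c hc0 hc using hlow
  obtain ⟨B, hB0, hB⟩ : ∃ B : ℝ, 0 < B ∧ ∀ (v : E) (j : Fin n), ‖b.repr v j‖ ≤ B * ‖v‖ := by
    have h1 : ∀ j : Fin n, ∃ B : ℝ, ∀ v : E, ‖b.repr v j‖ ≤ B * ‖v‖ := fun j =>
      ⟨‖LinearMap.toContinuousLinearMap (b.coord j)‖, fun v =>
        (LinearMap.toContinuousLinearMap (b.coord j)).le_opNorm v⟩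
    choose B hB using h1
    refine ⟨1 + ∑ j, |B j|, ?_, fun v j => ?_⟩
    · have : 0 ≤ ∑ j, |B j| := Finset.sum_nonneg fun j _ => abs_nonneg _
      linarith
    · refine (hB j v).trans (mul_le_mul_of_nonneg_right ?_ (norm_nonneg _))
      have h2 : |B j| ≤ ∑ j, |B j| :=
        Finset.single_le_sum (f := fun j => |B j|) (fun j _ => abs_nonneg _) (Finset.mem_univ j)
      linarith [le_abs_self (B j)]
  -- a uniform delta
  obtain ⟨δ, hδ0, hδ⟩ : ∃ δ : ℝ, 0 < δ ∧ ∀ x ∈ t, δ * ((n : ℝ) * n * (B * B)) ≤ ε * c x := by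
    rcases t.eq_empty_or_nonempty with h | h
    · exact ⟨1, one_pos, fun x hx => by simp [h] at hx⟩
    · obtain ⟨x₁, hx₁, hx₂⟩ := t.exists_min_image c h
      refine ⟨ε * c x₁ / ((n : ℝ) * n * (B * B) + 1), ?_, fun x hx => ?_⟩
      · have := hc0 x₁
        positivity
      · rw [div_mul_eq_mul_div, div_le_iff₀ (by positivity)]
        have h3 := hx₂ x hx
        have h4 := hc0 x₁
        have h5 : 0 ≤ (n : ℝ) * n * (B * B) := by positivity
        have h6 : ε * c x₁ ≤ ε * c x := mul_le_mul_of_nonneg_left h3 hε.le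
        have h7 : 0 ≤ ε * c x := h6.trans' (by positivity)
        nlinarith [mul_le_mul_of_nonneg_right h6 h5]
  have hmem : Φ θ ∈ closure D := hD3 ⟨θ, rfl⟩
  obtain ⟨d, hd, hdist⟩ := Metric.mem_closure_iff.1 hmem δ hδ0
  refine ⟨g d, ⟨d, hd, rfl⟩, fun x v => ?_⟩
  rw [← hg d hd] at hdist
  obtain ⟨x₀, hx₀, hx⟩ : ∃ x₀ ∈ t, x ∈ U x₀ := by
    have := ht (mem_univ x)
    simpa using this
  obtain ⟨w, hw⟩ := exists_mfderiv_eq x₀ x hx.1 v
  have hy : chartAt E x₀ x ∈ K x₀ := ball_subset_closedBall hx.2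
  rw [← hw (θ - g d).1, ← hw κ.1]
  have hcoef : ∀ j k, ‖inChart (chartAt E x₀) (θ - g d).1 (b j) (b k) (chartAt E x₀ x)‖ ≤ δ := by
    intro j k
    rw [inChart_sub, ← dist_eq_norm]
    have h1 := (dist_pi_lt_iff hδ0).1 hdist ⟨x₀, hx₀⟩
    have h2 := (ContinuousMap.dist_lt_iff hδ0).1 h1 ⟨chartAt E x₀ x, hy⟩
    have h3 := (dist_pi_lt_iff hδ0).1 h2 j
    exact ((dist_pi_lt_iff hδ0).1 h3 k).le
  rw [inChart_expand b]
  calc ‖∑ j, ∑ k, b.repr w j * (starRingEnd ℂ) (b.repr w k) *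
        inChart (chartAt E x₀) (θ - g d).1 (b j) (b k) (chartAt E x₀ x)‖
      ≤ ∑ j : Fin n, ∑ k : Fin n, (B * ‖w‖) * (B * ‖w‖) * δ := by
        refine (norm_sum_le _ _).trans (Finset.sum_le_sum fun j _ => ?_)
        refine (norm_sum_le _ _).trans (Finset.sum_le_sum fun k _ => ?_)
        rw [norm_mul, norm_mul, RCLike.norm_conj]
        refine mul_le_mul (mul_le_mul (hB w j) (hB w k) (norm_nonneg _) ?_) (hcoef j k)
          (norm_nonneg _) ?_
        · positivity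
        · positivity
    _ = (δ * ((n : ℝ) * n * (B * B))) * ‖w‖ ^ 2 := by
        simp only [Finset.sum_const, Finset.card_univ, Fintype.card_fin, nsmul_eq_mul]
        ring
    _ ≤ (ε * c x₀) * ‖w‖ ^ 2 := mul_le_mul_of_nonneg_right (hδ x₀ hx₀) (sq_nonneg _)
    _ = ε * (c x₀ * ‖w‖ ^ 2) := by ring
    _ ≤ _ := mul_le_mul_of_nonneg_left (hc x₀ _ hy w) hε.le

end main

end Pool.Agent.H71.Nev343
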